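import Pool.Agent.Helper8.Qh.MP

/-!
# Module POI: Poincaré inequality on the Heisenberg nilmanifold
-/

set_option autoImplicit false

namespace Pool.Agent.Helper19.Qh

open MeasureTheory Topology Set
open scoped ComplexConjugate

variable {m : ℕ}

/-! ### Points of the cell -/

theorem poi_continuous_cellpt (β : Fin (4 * m) → E m) (γ : Fin 3 → Q) (u : ℝ) :
    Continuous (fun x : (Fin (4 * m) → ℝ) × (Fin 3 → ℝ) => cellpt β γ x u) := by
  have h1 : Continuous (fun x : (Fin (4 * m) → ℝ) × (Fin 3 → ℝ) => ∑ i, x.1 i • β i) := by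
    fun_prop
  have h2 : Continuous (fun x : (Fin (4 * m) → ℝ) × (Fin 3 → ℝ) => ∑ j, x.2 j • γ j) := by
    fun_prop
  unfold cellpt
  apply Continuous.prodMk _ h1
  apply Continuous.add _ h2
  exact Quaternion.continuous_coe.comp (((continuous_const.add (h1.norm.pow 2)).neg).div_const 2)

theorem poi_cellpt_mem (β : Fin (4 * m) → E m) {γ : Fin 3 → Q} (hγ : ∀ j, (γ j).re = 0) {u : ℝ}
    (hu : 0 < u) (x : (Fin (4 * m) → ℝ) × (Fin 3 → ℝ)) : cellpt β γ x u ∈ SD m := by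
  change 0 < hgt (cellpt β γ x u)
  rw [hgt_cellpt β hγ]
  exact hu

theorem poi_cont {β : Fin (4 * m) → E m} {γ : Fin 3 → Q} (hγ : ∀ j, (γ j).re = 0) {u : ℝ}
    (hu : 0 < u) {φ : Pt m → ℂ} (hφ : ContinuousOn φ (SD m)) :
    Continuous (fun x : (Fin (4 * m) → ℝ) × (Fin 3 → ℝ) => φ (cellpt β γ x u)) :=
  hφ.comp_continuous (poi_continuous_cellpt β γ u) (poi_cellpt_mem β hγ hu)

/-! ### Invariance of derivatives -/

/-- the linear part of the translation `T a b` -/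
noncomputable def poi_L (b : E m) : Pt m →L[ℝ] Pt m := LinearMap.toContinuousLinearMap (mp_S b)

theorem poi_L_apply (b : E m) (v : Pt m) : poi_L b v = (v.1 - hin v.2 b, v.2) := rfl

theorem poi_hasFDerivAt_T (a : Q) (b : E m) (p : Pt m) :
    HasFDerivAt (act (T a b)) (poi_L b) p := by
  have h1 : act (T a b) = fun p => poi_L b p + (a, b) := by
    funext q
    rw [act_T, poi_L_apply]
    rfl
  rw [h1]
  exact (poi_L b).hasFDerivAt.add_const _

/-- derivative of a periodic function -/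
theorem poi_fderiv {N : Q → E m → Prop} {β : Fin (4 * m) → E m} {γ : Fin 3 → Q}
    (hN : Cusp N β γ) {φ : Pt m → ℂ} (hd : ContDiffOn ℝ 1 φ (SD m)) (hφ : Per N φ) {a : Q}
    {b : E m} (hab : N a b) {p : Pt m} (hp : p ∈ SD m) (v : Pt m) :
    fderiv ℝ φ (act (T a b) p) (poi_L b v) = fderiv ℝ φ p v := by
  have hg : T a b ∈ UG m := T_mem_UG (hN.norm a b hab)
  have h1 : HasFDerivAt φ (fderiv ℝ φ (act (T a b) p)) (act (T a b) p) :=
    ((hd.contDiffAt (isOpen_SD.mem_nhds (act_mem hg hp))).differentiableAt one_ne_zero).hasFDerivAt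
  have h2 := h1.comp p (poi_hasFDerivAt_T a b p)
  have h3 : (φ ∘ act (T a b)) =ᶠ[𝓝 p] φ := by
    filter_upwards [isOpen_SD.mem_nhds hp] with q hq
    exact hφ a b hab q hq
  have h4 := h2.congr_of_eventuallyEq h3.symm
  rw [h4.fderiv]
  rfl

theorem poi_per_X {N : Q → E m → Prop} {β : Fin (4 * m) → E m} {γ : Fin 3 → Q}
    (hN : Cusp N β γ) {φ : Pt m → ℂ} (hd : ContDiffOn ℝ 1 φ (SD m)) (hφ : Per N φ) (e : E m) :
    Per N (XX e φ) := by
  intro a b hab p hp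
  unfold XX
  rw [← poi_fderiv hN hd hφ hab hp]
  congr 1
  rw [poi_L_apply, act_T]
  apply Prod.ext
  · change -hin e (p.2 + b) = -hin e p.2 - hin e b
    rw [hin_add_right]
    abel
  · rfl

theorem poi_per_Z {N : Q → E m → Prop} {β : Fin (4 * m) → E m} {γ : Fin 3 → Q}
    (hN : Cusp N β γ) {φ : Pt m → ℂ} (hd : ContDiffOn ℝ 1 φ (SD m)) (hφ : Per N φ) (v : Q) :
    Per N (pd (v, 0) φ) := by
  intro a b hab p hp
  unfold pd
  rw [← poi_fderiv hN hd hφ hab hp]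
  congr 1
  rw [poi_L_apply]
  apply Prod.ext
  · change v = v - hin 0 b
    have : hin (0 : E m) b = 0 := by simp [hin]
    rw [this, sub_zero]
  · rfl

/-! ### Continuity of derivatives -/

theorem poi_cfd {φ : Pt m → ℂ} (hd : ContDiffOn ℝ 1 φ (SD m)) :
    ContinuousOn (fderiv ℝ φ) (SD m) :=
  hd.continuousOn_fderiv_of_isOpen isOpen_SD le_rfl

theorem poi_continuous_hin (e : E m) : Continuous (fun p : Pt m => hin e p.2) := by
  have h1 : ∀ k : Fin m, Continuous (fun p : Pt m => p.2 k) := by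
    intro k
    fun_prop
  unfold hin
  exact continuous_finsetSum _ fun k _ => continuous_const.mul (continuous_star.comp (h1 k))

theorem poi_c_X {φ : Pt m → ℂ} (hd : ContDiffOn ℝ 1 φ (SD m)) (e : E m) :
    ContinuousOn (XX e φ) (SD m) := by
  unfold XX
  apply (poi_cfd hd).clm_apply
  apply Continuous.continuousOn
  exact (poi_continuous_hin e).neg.prodMk continuous_const

theorem poi_c_Z {φ : Pt m → ℂ} (hd : ContDiffOn ℝ 1 φ (SD m)) (v : Q) :
    ContinuousOn (pd (v, 0) φ) (SD m) := by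
  unfold pd
  exact (poi_cfd hd).clm_apply continuousOn_const

/-! ### Integrals over the cell -/

/-- the integral of the square over the cell -/
noncomputable def poi_nI (β : Fin (4 * m) → E m) (γ : Fin 3 → Q) (u : ℝ) (φ : Pt m → ℂ) :
    ENNReal :=
  cellInt β γ (fun p => ENNReal.ofReal (‖φ p‖ ^ 2)) u

theorem poi_congr {β : Fin (4 * m) → E m} {γ : Fin 3 → Q} (hγ : ∀ j, (γ j).re = 0) {u : ℝ}
    (hu : 0 < u) {F G : Pt m → ENNReal} (h : ∀ p ∈ SD m, F p = G p) :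
    cellInt β γ F u = cellInt β γ G u := by
  unfold cellInt
  apply lintegral_congr
  intro x
  exact h _ (poi_cellpt_mem β hγ hu x)

theorem poi_nI_congr {β : Fin (4 * m) → E m} {γ : Fin 3 → Q} (hγ : ∀ j, (γ j).re = 0) {u : ℝ}
    (hu : 0 < u) {φ ψ : Pt m → ℂ} (h : ∀ p ∈ SD m, φ p = ψ p) :
    poi_nI β γ u φ = poi_nI β γ u ψ := by
  unfold poi_nI
  apply poi_congr hγ hu
  intro p hp
  rw [h p hp]

theorem poi_meas {β : Fin (4 * m) → E m} {γ : Fin 3 → Q} (hγ : ∀ j, (γ j).re = 0) {u : ℝ}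
    (hu : 0 < u) {φ : Pt m → ℂ} (hφ : ContinuousOn φ (SD m)) :
    Measurable (fun x : (Fin (4 * m) → ℝ) × (Fin 3 → ℝ) =>
      ENNReal.ofReal (‖φ (cellpt β γ x u)‖ ^ 2)) :=
  ((poi_cont hγ hu hφ).norm.pow 2).measurable.ennreal_ofReal

/-- finite sums of squares -/
theorem poi_sum {β : Fin (4 * m) → E m} {γ : Fin 3 → Q} (hγ : ∀ j, (γ j).re = 0) {u : ℝ}
    (hu : 0 < u) {ι : Type} (s : Finset ι) {f : ι → Pt m → ℂ}
    (hf : ∀ k, ContinuousOn (f k) (SD m)) :
    cellInt β γ (fun p => ENNReal.ofReal (∑ k ∈ s, ‖f k p‖ ^ 2)) u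
      = ∑ k ∈ s, poi_nI β γ u (f k) := by
  have h1 : cellInt β γ (fun p => ENNReal.ofReal (∑ k ∈ s, ‖f k p‖ ^ 2)) u
      = cellInt β γ (fun p => ∑ k ∈ s, ENNReal.ofReal (‖f k p‖ ^ 2)) u := by
    apply poi_congr hγ hu
    intro p _
    rw [ENNReal.ofReal_sum_of_nonneg (fun k _ => by positivity)]
  rw [h1]
  unfold cellInt poi_nI cellInt
  rw [lintegral_finsetSum]
  intro k _
  exact poi_meas hγ hu (hf k)

/-- finite double sums of squares -/
theorem poi_sum2 {β : Fin (4 * m) → E m} {γ : Fin 3 → Q} (hγ : ∀ j, (γ j).re = 0) {u : ℝ}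
    (hu : 0 < u) {f : Fin m → Fin 4 → Pt m → ℂ}
    (hf : ∀ k r, ContinuousOn (f k r) (SD m)) :
    cellInt β γ (fun p => ENNReal.ofReal (∑ k, ∑ r, ‖f k r p‖ ^ 2)) u
      = ∑ k, ∑ r, poi_nI β γ u (f k r) := by
  have h1 : cellInt β γ (fun p => ENNReal.ofReal (∑ k, ∑ r, ‖f k r p‖ ^ 2)) u
      = cellInt β γ (fun p => ∑ k, ENNReal.ofReal (∑ r, ‖f k r p‖ ^ 2)) u := by
    apply poi_congr hγ hu
    intro p _
    rw [ENNReal.ofReal_sum_of_nonneg (fun k _ => Finset.sum_nonneg fun r _ => by positivity)]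
  rw [h1]
  have h2 : ∀ k, Measurable (fun x : (Fin (4 * m) → ℝ) × (Fin 3 → ℝ) =>
      ENNReal.ofReal (∑ r, ‖f k r (cellpt β γ x u)‖ ^ 2)) := by
    intro k
    apply Measurable.ennreal_ofReal
    apply Continuous.measurable
    exact continuous_finsetSum _ fun r _ => (poi_cont hγ hu (hf k r)).norm.pow 2
  have h3 : cellInt β γ (fun p => ∑ k, ENNReal.ofReal (∑ r, ‖f k r p‖ ^ 2)) u
      = ∑ k, cellInt β γ (fun p => ENNReal.ofReal (∑ r, ‖f k r p‖ ^ 2)) u := by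
    unfold cellInt
    rw [lintegral_finsetSum]
    intro k _
    exact h2 k
  rw [h3]
  apply Finset.sum_congr rfl
  intro k _
  exact poi_sum hγ hu Finset.univ (hf k)

/-- the right hand side of the Poincaré inequality -/
noncomputable def poi_R (β : Fin (4 * m) → E m) (γ : Fin 3 → Q) (u : ℝ) (φ : Pt m → ℂ) :
    ENNReal :=
  ENNReal.ofReal (u ^ 2) * ∑ r : Fin 3, poi_nI β γ u (pd (qu r.succ, 0) φ)
    + ENNReal.ofReal u * ∑ k : Fin m, ∑ r : Fin 4, poi_nI β γ u (XX (ek k (qu r)) φ)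

theorem poi_gh {β : Fin (4 * m) → E m} {γ : Fin 3 → Q} (hγ : ∀ j, (γ j).re = 0) {u : ℝ}
    (hu : 0 < u) {φ : Pt m → ℂ} (hd : ContDiffOn ℝ 1 φ (SD m)) :
    cellInt β γ (fun p => ENNReal.ofReal (gh φ p)) u = poi_R β γ u φ := by
  unfold poi_R
  rw [← poi_sum2 hγ hu (fun k r => poi_c_X hd (ek k (qu r))),
    ← poi_sum hγ hu Finset.univ (fun r : Fin 3 => poi_c_Z hd (qu r.succ))]
  have mZ : Measurable (fun x : (Fin (4 * m) → ℝ) × (Fin 3 → ℝ) => ENNReal.ofReal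
      (∑ r : Fin 3, ‖pd (qu r.succ, 0) φ (cellpt β γ x u)‖ ^ 2)) := by
    apply Measurable.ennreal_ofReal
    apply Continuous.measurable
    exact continuous_finsetSum _ fun r _ => (poi_cont hγ hu (poi_c_Z hd (qu r.succ))).norm.pow 2
  have mH : Measurable (fun x : (Fin (4 * m) → ℝ) × (Fin 3 → ℝ) => ENNReal.ofReal
      (∑ k : Fin m, ∑ r : Fin 4, ‖XX (ek k (qu r)) φ (cellpt β γ x u)‖ ^ 2)) := by
    apply Measurable.ennreal_ofReal
    apply Continuous.measurable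
    exact continuous_finsetSum _ fun k _ => continuous_finsetSum _ fun r _ =>
      (poi_cont hγ hu (poi_c_X hd (ek k (qu r)))).norm.pow 2
  unfold cellInt
  rw [← lintegral_const_mul _ mZ, ← lintegral_const_mul _ mH,
    ← lintegral_add_left (mZ.const_mul _)]
  apply lintegral_congr
  intro x
  rw [← ENNReal.ofReal_mul hu.le, ← ENNReal.ofReal_mul (by positivity),
    ← ENNReal.ofReal_add (mul_nonneg (by positivity) (Finset.sum_nonneg fun k _ => by positivity))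
      (mul_nonneg hu.le (Finset.sum_nonneg fun k _ => Finset.sum_nonneg fun r _ =>
        by positivity))]
  unfold gh
  simp only [hgt_cellpt β hγ]

/-! ### Decomposition into modes -/

theorem poi_step1 (h1 : ST_MODE) (h2 : ST_PARS) {N : Q → E m → Prop} {β : Fin (4 * m) → E m}
    {γ : Fin 3 → Q} (hN : Cusp N β γ) {φ : Pt m → ℂ} (hd : ContDiffOn ℝ 2 φ (SD m))
    (hφ : Per N φ) {u : ℝ} (hu : 0 < u) (j : Fin 3) :
    poi_R β γ u φ = ∑' n : ℤ, poi_R β γ u (mode (γ j) n φ) := by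
  have hγ := hN.im
  have hd1 : ContDiffOn ℝ 1 φ (SD m) := hd.of_le (by norm_num)
  have eZ : ∀ v : Q, poi_nI β γ u (pd (v, 0) φ)
      = ∑' n : ℤ, poi_nI β γ u (pd (v, 0) (mode (γ j) n φ)) := by
    intro v
    have k1 := h2 m N β γ hN _ (poi_c_Z hd1 v) (poi_per_Z hN hd1 hφ v) j u hu
    unfold poi_nI at *
    rw [k1]
    congr 1
    funext n
    apply poi_congr hγ hu
    intro p hp
    rw [((h1 m N β γ hN φ hd hφ j n).2.2 p hp).2.1 v]
  have eX : ∀ e : E m, poi_nI β γ u (XX e φ)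
      = ∑' n : ℤ, poi_nI β γ u (XX e (mode (γ j) n φ)) := by
    intro e
    have k1 := h2 m N β γ hN _ (poi_c_X hd1 e) (poi_per_X hN hd1 hφ e) j u hu
    unfold poi_nI at *
    rw [k1]
    congr 1
    funext n
    apply poi_congr hγ hu
    intro p hp
    rw [((h1 m N β γ hN φ hd hφ j n).2.2 p hp).2.2 e]
  unfold poi_R
  simp only [eZ, eX]
  rw [ENNReal.tsum_add, ENNReal.tsum_mul_left, ENNReal.tsum_mul_left,
    Summable.tsum_finsetSum (fun _ _ => ENNReal.summable),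
    Summable.tsum_finsetSum (fun _ _ => ENNReal.summable)]
  congr 2
  apply Finset.sum_congr rfl
  intro k _
  rw [Summable.tsum_finsetSum (fun _ _ => ENNReal.summable)]

/-- the inequality follows from the inequality for the modes -/
theorem poi_ind (h1 : ST_MODE) (h2 : ST_PARS) {N : Q → E m → Prop} {β : Fin (4 * m) → E m}
    {γ : Fin 3 → Q} (hN : Cusp N β γ) {φ : Pt m → ℂ} (hd : ContDiffOn ℝ 2 φ (SD m))
    (hφ : Per N φ) {u : ℝ} (hu : 0 < u) (j : Fin 3) (A : ENNReal)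
    (h : ∀ n : ℤ, A * poi_nI β γ u (mode (γ j) n φ) ≤ poi_R β γ u (mode (γ j) n φ)) :
    A * poi_nI β γ u φ ≤ poi_R β γ u φ := by
  rw [poi_step1 h1 h2 hN hd hφ hu j]
  have k1 := h2 m N β γ hN φ hd.continuousOn hφ j u hu
  change A * cellInt β γ (fun p => ENNReal.ofReal (‖φ p‖ ^ 2)) u ≤ _
  rw [k1, ← ENNReal.tsum_mul_left]
  exact ENNReal.tsum_le_tsum h

theorem poi_shift_mem {p : Pt m} (hp : p ∈ SD m) {v : Q} (hv : v.re = 0) (t : ℝ) :
    (p.1 + t • v, p.2) ∈ SD m := by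
  have hp' : 0 < hgt p := hp
  change 0 < hgt (p.1 + t • v, p.2)
  unfold hgt at *
  simpa [hv] using hp'

/-- a mode of an eigenfunction of a central derivative is an eigenfunction -/
theorem poi_eig (h1 : ST_MODE) {N : Q → E m → Prop} {β : Fin (4 * m) → E m}
    {γ : Fin 3 → Q} (hN : Cusp N β γ) {φ : Pt m → ℂ} (hd : ContDiffOn ℝ 2 φ (SD m))
    (hφ : Per N φ) (j : Fin 3) (n : ℤ) (w : Q) (c : ℂ)
    (h : ∀ p ∈ SD m, pd (w, 0) φ p = c * φ p) :
    ∀ p ∈ SD m, pd (w, 0) (mode (γ j) n φ) p = c * mode (γ j) n φ p := by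
  intro p hp
  rw [← ((h1 m N β γ hN φ hd hφ j n).2.2 p hp).2.1 w]
  unfold mode
  rw [← intervalIntegral.integral_const_mul]
  apply intervalIntegral.integral_congr
  intro t _
  simp only
  rw [h _ (poi_shift_mem hp (hN.im j) t)]
  ring

/-! ### The mean value of the zeroth mode -/

theorem poi_insert (j : Fin 3) (s t : ℝ) (y : Fin 2 → ℝ) :
    (Fin.insertNth j s y : Fin 3 → ℝ) + Pi.single j t = Fin.insertNth j (s + t) y := by
  funext i
  refine Fin.succAboveCases j ?_ (fun i => ?_) i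
  · simp
  · simp [Fin.succAbove_ne]

theorem poi_dec (j : Fin 3) {F : (Fin 3 → ℝ) → ℂ} (hF : Continuous F) :
    ∫ x in Icc (0 : Fin 3 → ℝ) 1, F x
      = ∫ y in Icc (0 : Fin 2 → ℝ) 1, ∫ s in Icc (0 : ℝ) 1, F (Fin.insertNth j s y) := by
  have hmp := volume_preserving_piFinSuccAbove (fun _ : Fin 3 => ℝ) j
  have h1 := hmp.symm.setIntegral_preimage_emb
    (MeasurableEquiv.piFinSuccAbove (fun _ : Fin 3 => ℝ) j).symm.measurableEmbedding F
    (Icc (0 : Fin 3 → ℝ) 1)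
  rw [← h1]
  have h2 : (MeasurableEquiv.piFinSuccAbove (fun _ : Fin 3 => ℝ) j).symm ⁻¹'
      (Icc (0 : Fin 3 → ℝ) 1) = Icc (0 : ℝ) 1 ×ˢ Icc (0 : Fin 2 → ℝ) 1 := by
    ext ⟨s, y⟩
    change ((Fin.insertNth j s y : Fin 3 → ℝ) ∈ Icc (0 : Fin 3 → ℝ) 1)
      ↔ (s, y) ∈ Icc (0 : ℝ) 1 ×ˢ Icc (0 : Fin 2 → ℝ) 1
    simp only [mem_Icc, mem_prod, Pi.le_def, Pi.zero_apply, Pi.one_apply]
    constructor
    · rintro ⟨h3, h4⟩
      refine ⟨⟨?_, ?_⟩, fun i => ?_, fun i => ?_⟩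
      · simpa using h3 j
      · simpa using h4 j
      · simpa using h3 (j.succAbove i)
      · simpa using h4 (j.succAbove i)
    · rintro ⟨⟨h3, h4⟩, h5, h6⟩
      constructor
      · intro i
        refine Fin.succAboveCases j ?_ (fun i => ?_) i
        · simpa using h3
        · simpa using h5 i
      · intro i
        refine Fin.succAboveCases j ?_ (fun i => ?_) i
        · simpa using h4
        · simpa using h6 i
  rw [h2, Measure.volume_eq_prod, ← setIntegral_prod_swap]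
  have hcont : Continuous (fun z : (Fin 2 → ℝ) × ℝ =>
      F (Fin.insertNth j z.2 z.1 : Fin 3 → ℝ)) := by
    apply hF.comp
    apply continuous_pi
    intro i
    refine Fin.succAboveCases j ?_ (fun i => ?_) i
    · simp only [Fin.insertNth_apply_same]
      exact continuous_snd
    · simp only [Fin.insertNth_apply_succAbove]
      exact (continuous_apply i).comp continuous_fst
  change ∫ z in Icc (0 : Fin 2 → ℝ) 1 ×ˢ Icc (0 : ℝ) 1, F (Fin.insertNth j z.2 z.1 : Fin 3 → ℝ)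
    ∂((volume : Measure (Fin 2 → ℝ)).prod volume) = _
  apply setIntegral_prod (fun z : (Fin 2 → ℝ) × ℝ => F (Fin.insertNth j z.2 z.1 : Fin 3 → ℝ))
  apply ContinuousOn.integrableOn_compact (isCompact_Icc.prod isCompact_Icc)
  exact hcont.continuousOn

theorem poi_Icc : Icc (0 : (Fin (4 * m) → ℝ) × (Fin 3 → ℝ)) 1
    = Icc (0 : Fin (4 * m) → ℝ) 1 ×ˢ Icc (0 : Fin 3 → ℝ) 1 := by
  rw [Icc_prod_Icc]
  rfl

theorem poi_dec2 (j : Fin 3) {F : (Fin (4 * m) → ℝ) × (Fin 3 → ℝ) → ℂ} (hF : Continuous F) :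
    ∫ x in Icc (0 : (Fin (4 * m) → ℝ) × (Fin 3 → ℝ)) 1, F x
      = ∫ x₁ in Icc (0 : Fin (4 * m) → ℝ) 1, ∫ y in Icc (0 : Fin 2 → ℝ) 1,
        ∫ s in Icc (0 : ℝ) 1, F (x₁, Fin.insertNth j s y) := by
  have h1 : ∫ x in Icc (0 : (Fin (4 * m) → ℝ) × (Fin 3 → ℝ)) 1, F x
      = ∫ x₁ in Icc (0 : Fin (4 * m) → ℝ) 1, ∫ z in Icc (0 : Fin 3 → ℝ) 1, F (x₁, z) := by
    rw [poi_Icc, Measure.volume_eq_prod]
    apply setIntegral_prod
    apply ContinuousOn.integrableOn_compact (isCompact_Icc.prod isCompact_Icc)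
    exact hF.continuousOn
  rw [h1]
  congr 1
  funext x₁
  exact poi_dec j (hF.comp (continuous_const.prodMk continuous_id))

theorem poi_shift (β : Fin (4 * m) → E m) (γ : Fin 3 → Q) (u : ℝ) (j : Fin 3)
    (x : (Fin (4 * m) → ℝ) × (Fin 3 → ℝ)) (t : ℝ) :
    ((cellpt β γ x u).1 + t • γ j, (cellpt β γ x u).2)
      = cellpt β γ (x.1, x.2 + Pi.single j t) u := by
  unfold cellpt
  apply Prod.ext
  · simp only [Pi.add_apply, add_smul, Finset.sum_add_distrib]
    rw [add_assoc]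
    congr 2
    rw [Finset.sum_eq_single j]
    · rw [Pi.single_eq_same]
    · intro i _ hi
      rw [Pi.single_eq_of_ne hi, zero_smul]
    · intro hj
      exact absurd (Finset.mem_univ j) hj
  · rfl

theorem poi_periodic {N : Q → E m → Prop} {β : Fin (4 * m) → E m} {γ : Fin 3 → Q}
    (hN : Cusp N β γ) {φ : Pt m → ℂ} (hφ : Per N φ) {u : ℝ} (hu : 0 < u) (j : Fin 3)
    (x : (Fin (4 * m) → ℝ) × (Fin 3 → ℝ)) :
    φ (cellpt β γ (x.1, x.2 + Pi.single j 1) u) = φ (cellpt β γ x u) := by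
  have h1 : N (γ j) 0 := by
    rw [hN.cen]
    refine ⟨Pi.single j 1, ?_⟩
    rw [Finset.sum_eq_single j]
    · simp
    · intro i _ hi
      simp [Pi.single_eq_of_ne hi]
    · intro hj
      exact absurd (Finset.mem_univ j) hj
  have h2 := hφ _ _ h1 _ (poi_cellpt_mem β hN.im hu x)
  rw [act_T] at h2
  rw [← h2, ← poi_shift]
  congr 1
  apply Prod.ext
  · change (cellpt β γ x u).1 + (1 : ℝ) • γ j = (cellpt β γ x u).1 - hin (cellpt β γ x u).2 0 + γ j
    have : hin (cellpt β γ x u).2 (0 : E m) = 0 := by simp [hin]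
    rw [this, one_smul, sub_zero]
  · change (cellpt β γ x u).2 = (cellpt β γ x u).2 + 0
    rw [add_zero]

theorem poi_mean {N : Q → E m → Prop} {β : Fin (4 * m) → E m} {γ : Fin 3 → Q}
    (hN : Cusp N β γ) {φ : Pt m → ℂ} (hc : ContinuousOn φ (SD m)) (hφ : Per N φ) {u : ℝ}
    (hu : 0 < u) (j : Fin 3) :
    ∫ x in Icc (0 : (Fin (4 * m) → ℝ) × (Fin 3 → ℝ)) 1, mode (γ j) 0 φ (cellpt β γ x u)
      = ∫ x in Icc (0 : (Fin (4 * m) → ℝ) × (Fin 3 → ℝ)) 1, φ (cellpt β γ x u) := by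
  set Φ : (Fin (4 * m) → ℝ) × (Fin 3 → ℝ) → ℂ := fun x => φ (cellpt β γ x u) with hΦ
  have hG : Continuous Φ := poi_cont hN.im hu hc
  have e1 : ∀ x : (Fin (4 * m) → ℝ) × (Fin 3 → ℝ), mode (γ j) 0 φ (cellpt β γ x u)
      = ∫ t in (0 : ℝ)..1, Φ (x.1, x.2 + Pi.single j t) := by
    intro x
    unfold mode
    apply intervalIntegral.integral_congr
    intro t _
    simp only
    rw [poi_shift]
    simp [hΦ]
  simp only [e1]
  have hM : Continuous (fun x : (Fin (4 * m) → ℝ) × (Fin 3 → ℝ) =>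
      ∫ t in (0 : ℝ)..1, Φ (x.1, x.2 + Pi.single j t)) := by
    apply intervalIntegral.continuous_parametric_intervalIntegral_of_continuous'
    apply hG.comp
    apply Continuous.prodMk
    · exact continuous_fst.comp continuous_fst
    · apply Continuous.add
      · exact continuous_snd.comp continuous_fst
      · exact (continuous_single j).comp continuous_snd
  rw [poi_dec2 j hM, poi_dec2 j hG]
  congr 1
  funext x₁
  congr 1
  funext y
  have hper : Function.Periodic (fun r : ℝ => Φ (x₁, Fin.insertNth j r y)) 1 := by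
    intro r
    have := poi_periodic hN hφ hu j (x₁, (Fin.insertNth j r y : Fin 3 → ℝ))
    simp only at this ⊢
    rw [poi_insert] at this
    exact this
  have h3 : ∀ s : ℝ, ∫ t in (0 : ℝ)..1, Φ (x₁, (Fin.insertNth j s y : Fin 3 → ℝ) + Pi.single j t)
      = ∫ t in (0 : ℝ)..1, Φ (x₁, Fin.insertNth j t y) := by
    intro s
    have h4 : ∀ t : ℝ, Φ (x₁, (Fin.insertNth j s y : Fin 3 → ℝ) + Pi.single j t)
        = (fun r : ℝ => Φ (x₁, Fin.insertNth j r y)) (s + t) := by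
      intro t
      rw [poi_insert]
    simp only [h4]
    rw [intervalIntegral.integral_comp_add_left (fun r : ℝ => Φ (x₁, Fin.insertNth j r y)) s]
    have h5 := hper.intervalIntegral_add_eq (s + 0) 0
    rw [zero_add, add_zero] at h5
    rw [add_zero, h5]
  simp only [h3]
  rw [setIntegral_const]
  have h2 : (volume : Measure ℝ).real (Icc (0 : ℝ) 1) = 1 := by simp
  rw [h2, one_smul, intervalIntegral.integral_of_le zero_le_one, ← integral_Icc_eq_integral_Ioc]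

/-! ### Linear algebra in the centre -/

/-- the real part as a linear map -/
noncomputable def poi_reL : Q →ₗ[ℝ] ℝ where
  toFun q := q.re
  map_add' _ _ := rfl
  map_smul' _ _ := rfl

theorem poi_basis {γ : Fin 3 → Q} (hγ : ∀ j, (γ j).re = 0) (hl : LinearIndependent ℝ γ) :
    ∃ b : Module.Basis (Fin 4) ℝ Q, b 0 = 1 ∧ ∀ j : Fin 3, b j.succ = γ j := by
  have h1 : LinearIndependent ℝ (Fin.cons (1 : Q) γ : Fin 4 → Q) := by
    rw [linearIndependent_finCons]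
    refine ⟨hl, ?_⟩
    intro h
    have h2 : Submodule.span ℝ (Set.range γ) ≤ LinearMap.ker poi_reL := by
      rw [Submodule.span_le]
      rintro _ ⟨j, rfl⟩
      exact hγ j
    have h3 : (1 : Q).re = 0 := h2 h
    have h4 : (1 : Q).re = 1 := rfl
    rw [h4] at h3
    exact one_ne_zero h3
  let b := basisOfLinearIndependentOfCardEqFinrank h1
    (by rw [Quaternion.finrank_eq_four, Fintype.card_fin])
  have hb : ⇑b = (Fin.cons (1 : Q) γ : Fin 4 → Q) :=
    coe_basisOfLinearIndependentOfCardEqFinrank _ _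
  refine ⟨b, ?_, fun j => ?_⟩
  · rw [hb]; rfl
  · rw [hb]; rfl

theorem poi_span {γ : Fin 3 → Q} (hγ : ∀ j, (γ j).re = 0) (hl : LinearIndependent ℝ γ) {v : Q}
    (hv : v.re = 0) : ∃ c : Fin 3 → ℝ, v = ∑ j, c j • γ j := by
  obtain ⟨b, hb0, hb⟩ := poi_basis hγ hl
  refine ⟨fun j => b.repr v j.succ, ?_⟩
  have h1 := (b.sum_repr v).symm
  rw [Fin.sum_univ_succ, hb0] at h1
  simp only [hb] at h1
  have h2 : b.repr v 0 = 0 := by
    have h3 := congrArg (fun q : Q => q.re) h1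
    simp only [Quaternion.re_add, re_sum_im γ hγ, hv, Quaternion.re_smul, add_zero] at h3
    have h4 : (1 : Q).re = 1 := rfl
    rw [h4, smul_eq_mul, mul_one] at h3
    exact h3.symm
  rw [h2, zero_smul, zero_add] at h1
  exact h1

theorem poi_xi {γ : Fin 3 → Q} (hγ : ∀ j, (γ j).re = 0) (hl : LinearIndependent ℝ γ)
    (n : Fin 3 → ℝ) : ∃ ξ : Q, ξ.re = 0 ∧ ∀ j, inner ℝ ξ (γ j) = n j := by
  obtain ⟨b, hb0, hb⟩ := poi_basis hγ hl
  let ℓ : Q →ₗ[ℝ] ℝ := b.constr ℝ (Fin.cons (0 : ℝ) n : Fin 4 → ℝ)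
  refine ⟨(InnerProductSpace.toDual ℝ Q).symm (LinearMap.toContinuousLinearMap ℓ), ?_, ?_⟩
  · have h1 : inner ℝ ((InnerProductSpace.toDual ℝ Q).symm (LinearMap.toContinuousLinearMap ℓ))
        (1 : Q) = 0 := by
      rw [InnerProductSpace.toDual_symm_apply]
      change ℓ 1 = 0
      rw [← hb0]
      change b.constr ℝ (Fin.cons (0 : ℝ) n : Fin 4 → ℝ) (b 0) = 0
      rw [Module.Basis.constr_basis]
      rfl
    rw [Quaternion.inner_def] at h1
    simpa using h1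
  · intro j
    rw [InnerProductSpace.toDual_symm_apply]
    change ℓ (γ j) = n j
    rw [← hb j]
    change b.constr ℝ (Fin.cons (0 : ℝ) n : Fin 4 → ℝ) (b j.succ) = n j
    rw [Module.Basis.constr_basis]
    rfl

theorem poi_qu_re (r : Fin 3) : (qu r.succ).re = 0 := by
  fin_cases r <;> rfl

theorem poi_inner_qu (ξ : Q) : inner ℝ ξ (qu 1) = ξ.imI ∧ inner ℝ ξ (qu 2) = ξ.imJ ∧
    inner ℝ ξ (qu 3) = ξ.imK := by
  have a1 : (qu 1).re = 0 := rfl
  have a2 : (qu 1).imI = 1 := rfl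
  have a3 : (qu 1).imJ = 0 := rfl
  have a4 : (qu 1).imK = 0 := rfl
  have b1 : (qu 2).re = 0 := rfl
  have b2 : (qu 2).imI = 0 := rfl
  have b3 : (qu 2).imJ = 1 := rfl
  have b4 : (qu 2).imK = 0 := rfl
  have c1 : (qu 3).re = 0 := rfl
  have c2 : (qu 3).imI = 0 := rfl
  have c3 : (qu 3).imJ = 0 := rfl
  have c4 : (qu 3).imK = 1 := rfl
  simp only [Quaternion.inner_def, Quaternion.re_mul, Quaternion.re_star, Quaternion.imI_star,
    Quaternion.imJ_star, Quaternion.imK_star, a1, a2, a3, a4, b1, b2, b3, b4, c1, c2, c3, c4]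
  refine ⟨?_, ?_, ?_⟩ <;> ring

theorem poi_norm_xi {ξ : Q} (hξ : ξ.re = 0) :
    ∑ r : Fin 3, (inner ℝ ξ (qu r.succ)) ^ 2 = ‖ξ‖ ^ 2 := by
  rw [q_norm_sq, Fin.sum_univ_three, hξ]
  change (inner ℝ ξ (qu 1)) ^ 2 + (inner ℝ ξ (qu 2)) ^ 2 + (inner ℝ ξ (qu 3)) ^ 2 = _
  obtain ⟨h1, h2, h3⟩ := poi_inner_qu ξ
  rw [h1, h2, h3]
  ring

/-- all central derivatives from three of them -/
theorem poi_pd {γ : Fin 3 → Q} (hγ : ∀ j, (γ j).re = 0) (hl : LinearIndependent ℝ γ)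
    {φ : Pt m → ℂ} {n : Fin 3 → ℤ} {ξ : Q} (hξ : ∀ j, inner ℝ ξ (γ j) = (n j : ℝ)) {p : Pt m}
    (h : ∀ j, pd (γ j, 0) φ p = ((2 * Real.pi * n j : ℝ) : ℂ) * Complex.I * φ p) {v : Q}
    (hv : v.re = 0) :
    pd (v, 0) φ p = ((2 * Real.pi * inner ℝ ξ v : ℝ) : ℂ) * Complex.I * φ p := by
  obtain ⟨c, rfl⟩ := poi_span hγ hl hv
  have h1 : ((∑ j, c j • γ j, 0) : Pt m) = ∑ j, c j • ((γ j, 0) : Pt m) := by
    apply Prod.ext
    · rw [Prod.fst_sum]
      rfl
    · rw [Prod.snd_sum]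
      simp
  unfold pd at *
  rw [h1, map_sum]
  simp only [map_smul, h, inner_sum, inner_smul_right, hξ]
  rw [Finset.mul_sum]
  push_cast
  rw [Finset.sum_mul, Finset.sum_mul]
  apply Finset.sum_congr rfl
  intro j _
  rw [Complex.real_smul]
  ring

/-! ### The inequality for a joint mode -/

theorem poi_base (h3 : ST_LAND) (h4 : ST_ABEL) {N : Q → E m → Prop} {β : Fin (4 * m) → E m}
    {γ : Fin 3 → Q} {δ s : ℝ} (hN : Cusp N β γ) (hδ : DualMin β δ) (hs : CentMin γ s)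
    (hs0 : 0 ≤ s) {φ : Pt m → ℂ} (hd : ContDiffOn ℝ 2 φ (SD m)) (hφ : Per N φ) {u : ℝ}
    (hu : 0 < u) (n : Fin 3 → ℤ)
    (hpd : ∀ j, ∀ p ∈ SD m, pd (γ j, 0) φ p = ((2 * Real.pi * n j : ℝ) : ℂ) * Complex.I * φ p)
    (hm : n = 0 → ∫ x in Icc (0 : (Fin (4 * m) → ℝ) × (Fin 3 → ℝ)) 1, φ (cellpt β γ x u) = 0) :
    ENNReal.ofReal (muP m δ s u) * poi_nI β γ u φ ≤ poi_R β γ u φ := by
  have hγ := hN.im
  have hd1 : ContDiffOn ℝ 1 φ (SD m) := hd.of_le (by norm_num)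
  have hpi := Real.pi_pos
  obtain ⟨ξ, hξ0, hξ⟩ := poi_xi hγ hN.lic (fun j => (n j : ℝ))
  have hpv : ∀ v : Q, v.re = 0 → ∀ p ∈ SD m,
      pd (v, 0) φ p = ((2 * Real.pi * inner ℝ ξ v : ℝ) : ℂ) * Complex.I * φ p :=
    fun v hv p hp => poi_pd hγ hN.lic hξ (fun j => hpd j p hp) hv
  by_cases hn : n = 0
  · have z0 : ∀ v : Q, v.re = 0 → ∀ p ∈ SD m, pd (v, 0) φ p = 0 := by
      intro v hv p hp
      obtain ⟨c, rfl⟩ := poi_span hγ hN.lic hv
      rw [hpv _ hv p hp]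
      have : inner ℝ ξ (∑ j, c j • γ j) = 0 := by
        rw [inner_sum]
        apply Finset.sum_eq_zero
        intro j _
        rw [inner_smul_right, hξ, hn]
        simp
      rw [this]
      simp
    have k1 := h4 m N β γ δ hN hδ φ hd hφ z0 u hu (hm hn)
    rw [poi_sum2 hγ hu (fun k r => poi_c_X hd1 (ek k (qu r)))] at k1
    have k2 : muP m δ s u ≤ 4 * Real.pi ^ 2 * δ * u := min_le_left _ _
    calc ENNReal.ofReal (muP m δ s u) * poi_nI β γ u φ
        ≤ ENNReal.ofReal (u * (4 * Real.pi ^ 2 * δ)) * poi_nI β γ u φ := by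
          apply mul_le_mul_left
          apply ENNReal.ofReal_le_ofReal
          linarith
      _ = ENNReal.ofReal u * (ENNReal.ofReal (4 * Real.pi ^ 2 * δ) * poi_nI β γ u φ) := by
          rw [ENNReal.ofReal_mul hu.le, mul_assoc]
      _ ≤ _ := (mul_le_mul_right k1 _).trans le_add_self
  · have hξne : ξ ≠ 0 := by
      intro h0
      apply hn
      funext j
      have := hξ j
      rw [h0, inner_zero_left] at this
      have h5 : ((n j : ℤ) : ℝ) = 0 := this.symm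
      exact_mod_cast h5
    have hsξ : s ≤ ‖ξ‖ := hs ξ hξ0 hξne (fun j => ⟨n j, hξ j⟩)
    have bZ : ∑ r : Fin 3, poi_nI β γ u (pd (qu r.succ, 0) φ)
        = ENNReal.ofReal (4 * Real.pi ^ 2 * ‖ξ‖ ^ 2) * poi_nI β γ u φ := by
      have e1 : ∀ r : Fin 3, poi_nI β γ u (pd (qu r.succ, 0) φ)
          = ENNReal.ofReal (4 * Real.pi ^ 2 * (inner ℝ ξ (qu r.succ)) ^ 2)
            * poi_nI β γ u φ := by
        intro r
        have e2 : poi_nI β γ u (pd (qu r.succ, 0) φ) = cellInt β γ (fun p =>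
            ENNReal.ofReal (4 * Real.pi ^ 2 * (inner ℝ ξ (qu r.succ)) ^ 2) *
              ENNReal.ofReal (‖φ p‖ ^ 2)) u := by
          unfold poi_nI
          apply poi_congr hγ hu
          intro p hp
          rw [hpv _ (poi_qu_re r) p hp, norm_mul, norm_mul, Complex.norm_I, mul_one,
            Complex.norm_real, Real.norm_eq_abs, mul_pow, sq_abs,
            ENNReal.ofReal_mul (by positivity)]
          congr 2
          ring
        rw [e2]
        exact lintegral_const_mul _ (poi_meas hγ hu hd.continuousOn)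
      simp only [e1]
      rw [← Finset.sum_mul, ← ENNReal.ofReal_sum_of_nonneg (fun r _ => by positivity),
        ← Finset.mul_sum, poi_norm_xi hξ0]
    have k1 : ∀ k : Fin m, ENNReal.ofReal (8 * Real.pi * ‖ξ‖) * poi_nI β γ u φ
        ≤ ∑ r : Fin 4, poi_nI β γ u (XX (ek k (qu r)) φ) := by
      intro k
      rw [← poi_sum hγ hu Finset.univ (fun r => poi_c_X hd1 (ek k (qu r)))]
      exact h3 m N β γ hN φ hd hφ ξ hξ0 hpv u hu k
    have k2 := Finset.sum_le_sum (fun k (_ : k ∈ (Finset.univ : Finset (Fin m))) => k1 k)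
    rw [Finset.sum_const, Finset.card_univ, Fintype.card_fin, nsmul_eq_mul] at k2
    have k3 : muP m δ s u ≤ 8 * Real.pi * (m : ℝ) * s * u + 4 * Real.pi ^ 2 * s ^ 2 * u ^ 2 :=
      min_le_right _ _
    have k4 : muP m δ s u
        ≤ u ^ 2 * (4 * Real.pi ^ 2 * ‖ξ‖ ^ 2) + u * (m * (8 * Real.pi * ‖ξ‖)) := by
      have e3 : s ^ 2 ≤ ‖ξ‖ ^ 2 := pow_le_pow_left₀ hs0 hsξ 2
      have e4 : 4 * Real.pi ^ 2 * u ^ 2 * s ^ 2 ≤ 4 * Real.pi ^ 2 * u ^ 2 * ‖ξ‖ ^ 2 :=
        mul_le_mul_of_nonneg_left e3 (by positivity)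
      have e5 : 8 * Real.pi * (m : ℝ) * u * s ≤ 8 * Real.pi * (m : ℝ) * u * ‖ξ‖ :=
        mul_le_mul_of_nonneg_left hsξ (by positivity)
      linarith
    unfold poi_R
    rw [bZ]
    calc ENNReal.ofReal (muP m δ s u) * poi_nI β γ u φ
        ≤ ENNReal.ofReal (u ^ 2 * (4 * Real.pi ^ 2 * ‖ξ‖ ^ 2) + u * (m * (8 * Real.pi * ‖ξ‖)))
          * poi_nI β γ u φ := by
          apply mul_le_mul_left
          exact ENNReal.ofReal_le_ofReal k4
      _ = ENNReal.ofReal (u ^ 2) * (ENNReal.ofReal (4 * Real.pi ^ 2 * ‖ξ‖ ^ 2) *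
            poi_nI β γ u φ) +
          ENNReal.ofReal u * ((m : ENNReal) * (ENNReal.ofReal (8 * Real.pi * ‖ξ‖) *
            poi_nI β γ u φ)) := by
          rw [ENNReal.ofReal_add (by positivity) (by positivity),
            ENNReal.ofReal_mul (by positivity), ENNReal.ofReal_mul hu.le,
            ENNReal.ofReal_mul (by positivity : (0 : ℝ) ≤ (m : ℝ)), ENNReal.ofReal_natCast]
          ring
      _ ≤ _ := add_le_add_right (mul_le_mul_right k2 _) _

theorem st_POI (h1 : ST_MODE) (h2 : ST_PARS) (h3 : ST_LAND) (h4 : ST_ABEL) : ST_POI := by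
  intro m N β γ δ s hN hδ hs hs0 φ hd hper u hu hm
  have hφ : Per N φ := hper
  have hd1 : ContDiffOn ℝ 1 φ (SD m) := hd.of_le (by norm_num)
  rw [poi_gh hN.im hu hd1]
  change ENNReal.ofReal (muP m δ s u) * poi_nI β γ u φ ≤ poi_R β γ u φ
  apply poi_ind h1 h2 hN hd hφ hu 2
  intro n2
  obtain ⟨a1, a2, a3⟩ := h1 m N β γ hN φ hd hφ 2 n2
  apply poi_ind h1 h2 hN a1 a2 hu 1
  intro n1
  obtain ⟨b1, b2, b3⟩ := h1 m N β γ hN _ a1 a2 1 n1
  apply poi_ind h1 h2 hN b1 b2 hu 0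
  intro n0
  obtain ⟨c1, c2, c3⟩ := h1 m N β γ hN _ b1 b2 0 n0
  refine poi_base h3 h4 hN hδ hs hs0 c1 c2 hu ![n0, n1, n2] ?_ ?_
  · intro j
    fin_cases j
    · intro p hp
      exact (c3 p hp).1
    · exact poi_eig h1 hN b1 b2 0 n0 (γ 1) _ (fun p hp => (b3 p hp).1)
    · exact poi_eig h1 hN b1 b2 0 n0 (γ 2) _
        (poi_eig h1 hN a1 a2 1 n1 (γ 2) _ (fun p hp => (a3 p hp).1))
  · intro hn
    have e0 : n0 = 0 := congrFun hn 0
    have e1 : n1 = 0 := congrFun hn 1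
    have e2 : n2 = 0 := congrFun hn 2
    subst e0 e1 e2
    rw [poi_mean hN b1.continuousOn b2 hu 0, poi_mean hN a1.continuousOn a2 hu 1,
      poi_mean hN hd.continuousOn hφ hu 2, hm]

end Pool.Agent.Helper19.Qh
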