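import Pool.Agent.Helper19.Qh.Stmts

set_option autoImplicit false

/-!
# Module MP : invariance of the hyperbolic measure
-/

namespace Pool.Agent.Helper19.Qh

open MeasureTheory Topology

variable {m : ℕ}

theorem mp_haar : (volume : Measure (Pt m)).IsAddHaarMeasure := by
  rw [Measure.volume_eq_prod]
  exact Measure.prod.instIsAddHaarMeasure _ _

theorem mp_finrankE : Module.finrank ℝ (E m) = 4 * m := by
  rw [(WithLp.linearEquiv 2 ℝ (Fin m → Q)).finrank_eq, Module.finrank_pi_fintype]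
  simp only [Quaternion.finrank_eq_four, Finset.sum_const, Finset.card_univ, Fintype.card_fin,
    smul_eq_mul]
  ring

instance mp_finE : FiniteDimensional ℝ (E m) :=
  (WithLp.linearEquiv 2 ℝ (Fin m → Q)).symm.finiteDimensional

/-- shear -/
noncomputable def mp_S (b : E m) : Pt m →ₗ[ℝ] Pt m where
  toFun x := (x.1 - hin x.2 b, x.2)
  map_add' x y := by
    refine Prod.ext ?_ rfl
    change x.1 + y.1 - hin (x.2 + y.2) b = x.1 - hin x.2 b + (y.1 - hin y.2 b)
    rw [hin_add_left]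
    abel
  map_smul' c x := by
    refine Prod.ext ?_ rfl
    change c • x.1 - hin (c • x.2) b = c • (x.1 - hin x.2 b)
    rw [hin_rsmul_left, smul_sub]

theorem mp_S_apply (b : E m) (x : Pt m) : mp_S b x = (x.1 - hin x.2 b, x.2) := rfl

/-- change of sign of the first coordinate -/
noncomputable def mp_e : Pt m ≃ₗ[ℝ] Pt m :=
  (LinearEquiv.neg ℝ).prodCongr (LinearEquiv.refl ℝ (E m))

theorem mp_e_apply (x : Pt m) : mp_e x = (-x.1, x.2) := rfl

theorem mp_e_symm_apply (x : Pt m) : (mp_e (m := m)).symm x = (-x.1, x.2) := rfl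

theorem mp_S_det (b : E m) : |LinearMap.det (mp_S b)| = 1 := by
  have h1 : (mp_e (m := m)).toLinearMap ∘ₗ mp_S b ∘ₗ (mp_e (m := m)).symm.toLinearMap
      = mp_S (-b) := by
    apply LinearMap.ext
    intro x
    change mp_e (mp_S b ((mp_e (m := m)).symm x)) = mp_S (-b) x
    rw [mp_e_symm_apply, mp_S_apply, mp_e_apply, mp_S_apply, hin_neg_right]
    refine Prod.ext ?_ rfl
    change -(-x.1 - hin x.2 b) = x.1 - -hin x.2 b
    abel
  have h2 : LinearMap.det (mp_S (-b)) = LinearMap.det (mp_S b) := by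
    rw [← h1]
    exact LinearMap.det_conj (mp_S b) mp_e
  have h3 : mp_S b ∘ₗ mp_S (-b) = LinearMap.id := by
    apply LinearMap.ext
    intro x
    change mp_S b (mp_S (-b) x) = x
    rw [mp_S_apply, mp_S_apply, hin_neg_right]
    refine Prod.ext ?_ rfl
    change x.1 - -hin x.2 b - hin x.2 b = x.1
    abel
  have h4 := congrArg LinearMap.det h3
  rw [LinearMap.det_comp, h2, LinearMap.det_id] at h4
  have h5 : |LinearMap.det (mp_S b)| * |LinearMap.det (mp_S b)| = 1 := by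
    rw [← abs_mul, h4, abs_one]
  have h6 : 0 ≤ |LinearMap.det (mp_S b)| := abs_nonneg _
  nlinarith

/-- the frame as a linear map -/
noncomputable def mp_fr (p : Pt m) : Pt m →ₗ[ℝ] Pt m :=
  mp_S p.2 ∘ₗ LinearMap.prodMap (hgt p • (LinearMap.id : Q →ₗ[ℝ] Q))
    (√(hgt p) • (LinearMap.id : E m →ₗ[ℝ] E m))

theorem mp_fr_apply (p x : Pt m) : mp_fr p x = fr p x := by
  change (hgt p • x.1 - hin (√(hgt p) • x.2) p.2, √(hgt p) • x.2) = fr p x
  rw [hin_rsmul_left]
  rfl

theorem mp_fr_det {p : Pt m} (hp : p ∈ SD m) :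
    |LinearMap.det (mp_fr p)| = hgt p ^ (2 * m + 4) := by
  have hp' : 0 < hgt p := hp
  unfold mp_fr
  rw [LinearMap.det_comp, abs_mul, mp_S_det, one_mul, LinearMap.det_prodMap, LinearMap.det_smul,
    LinearMap.det_smul, LinearMap.det_id, LinearMap.det_id, mp_finrankE, Quaternion.finrank_eq_four,
    mul_one, mul_one, abs_mul, abs_of_nonneg (by positivity), abs_of_nonneg (by positivity)]
  have h1 : √(hgt p) ^ (4 * m) = hgt p ^ (2 * m) := by
    have : 4 * m = 2 * (2 * m) := by ring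
    rw [this, pow_mul, Real.sq_sqrt hp'.le]
  rw [h1, ← pow_add]
  congr 1
  ring

theorem mp_A_det (A : Pt m →ₗ[ℝ] Pt m)
    (hA : ∀ x : Pt m, ‖(A x).1‖ ^ 2 + ‖(A x).2‖ ^ 2 = ‖x.1‖ ^ 2 + ‖x.2‖ ^ 2) :
    |LinearMap.det A| = 1 := by
  have hH : (volume : Measure (Pt m)).IsAddHaarMeasure := mp_haar
  set B : Set (Pt m) := {x | ‖x.1‖ ^ 2 + ‖x.2‖ ^ 2 < 1} with hB
  have hinj : Function.Injective A := by
    rw [injective_iff_map_eq_zero]
    intro x hx
    have h1 := hA x
    rw [hx] at h1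
    simp only [Prod.fst_zero, Prod.snd_zero, norm_zero] at h1
    have h2 : ‖x.1‖ ^ 2 = 0 := by nlinarith [sq_nonneg ‖x.1‖, sq_nonneg ‖x.2‖]
    have h3 : ‖x.2‖ ^ 2 = 0 := by nlinarith [sq_nonneg ‖x.1‖, sq_nonneg ‖x.2‖]
    refine Prod.ext ?_ ?_
    · exact norm_eq_zero.1 (pow_eq_zero_iff (two_ne_zero)|>.1 h2)
    · exact norm_eq_zero.1 (pow_eq_zero_iff (two_ne_zero)|>.1 h3)
  have hsurj : Function.Surjective A := LinearMap.surjective_of_injective hinj
  have himg : A '' B = B := by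
    apply Set.Subset.antisymm
    · rintro _ ⟨x, hx, rfl⟩
      change ‖(A x).1‖ ^ 2 + ‖(A x).2‖ ^ 2 < 1
      rw [hA]
      exact hx
    · intro y hy
      obtain ⟨x, rfl⟩ := hsurj y
      refine ⟨x, ?_, rfl⟩
      change ‖x.1‖ ^ 2 + ‖x.2‖ ^ 2 < 1
      rw [← hA]
      exact hy
  have hopen : IsOpen B :=
    isOpen_lt ((continuous_fst.norm.pow 2).add (continuous_snd.norm.pow 2)) continuous_const
  have hne : B.Nonempty := ⟨0, by simp [hB]⟩
  have hpos : 0 < (volume : Measure (Pt m)) B := hopen.measure_pos _ hne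
  have hfin : (volume : Measure (Pt m)) B < ⊤ := by
    refine (measure_mono ?_).trans_lt (measure_ball_lt_top (x := (0 : Pt m)) (r := 1))
    intro x hx
    rw [mem_ball_zero_iff]
    have hx' : ‖x.1‖ ^ 2 + ‖x.2‖ ^ 2 < 1 := hx
    rw [Prod.norm_def, max_lt_iff]
    constructor
    · nlinarith [sq_nonneg ‖x.2‖, norm_nonneg x.1]
    · nlinarith [sq_nonneg ‖x.1‖, norm_nonneg x.2]
  have h1 := Measure.addHaar_image_linearMap (volume : Measure (Pt m)) A B
  rw [himg] at h1
  have h2 : ENNReal.ofReal |LinearMap.det A| = 1 := by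
    have h3 : ENNReal.ofReal |LinearMap.det A| * (volume : Measure (Pt m)) B
        = 1 * (volume : Measure (Pt m)) B := by rw [one_mul]; exact h1.symm
    exact (ENNReal.mul_left_inj hpos.ne' hfin.ne).1 h3
  rwa [ENNReal.ofReal_eq_one] at h2

theorem mp_abs_det (hJ : ST_JAC) {g : V m ≃ₗ[Q] V m} (hg : g ∈ UG m) {p : Pt m}
    (hp : p ∈ SD m) :
    |(fderiv ℝ (act g) p).det| = (hgt (act g p) / hgt p) ^ (2 * m + 4) := by
  obtain ⟨J, A, hJf, hJA, hA⟩ := hJ m g hg p hp
  have hp' : 0 < hgt p := hp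
  rw [hJf.fderiv]
  have h1 : (J : Pt m →ₗ[ℝ] Pt m) ∘ₗ mp_fr p = mp_fr (act g p) ∘ₗ A := by
    apply LinearMap.ext
    intro x
    change J (mp_fr p x) = mp_fr (act g p) (A x)
    rw [mp_fr_apply, mp_fr_apply, hJA]
  have h2 := congrArg (fun L => |LinearMap.det L|) h1
  simp only [LinearMap.det_comp, abs_mul] at h2
  rw [mp_fr_det hp, mp_fr_det (act_mem hg hp), mp_A_det A hA, mul_one] at h2
  have h3 : J.det = LinearMap.det (J : Pt m →ₗ[ℝ] Pt m) := rfl
  rw [h3, div_pow, eq_div_iff (pow_ne_zero _ hp'.ne')]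
  exact h2

theorem mp_image_SD {g : V m ≃ₗ[Q] V m} (hg : g ∈ UG m) : act g '' SD m = SD m := by
  apply Set.Subset.antisymm
  · rintro _ ⟨p, hp, rfl⟩
    exact act_mem hg hp
  · intro q hq
    exact ⟨act g⁻¹ q, act_mem ((UG m).inv_mem hg) hq, act_act_inv hg hq⟩

theorem mp_injOn {g : V m ≃ₗ[Q] V m} (hg : g ∈ UG m) : Set.InjOn (act g) (SD m) := by
  intro p hp q hq h
  rw [← act_inv_act hg hp, h, act_inv_act hg hq]

theorem mp_hyp_apply {s : Set (Pt m)} (hs : MeasurableSet s) :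
    hyp m s
      = ∫⁻ p in SD m, s.indicator (fun p => ENNReal.ofReal ((hgt p ^ (2 * m + 4))⁻¹)) p := by
  rw [hyp, withDensity_apply _ hs, ← lintegral_indicator hs]

theorem st_MP (hC : ST_CD) (hM : ST_ME) (hJ : ST_JAC) : ST_MP := by
  intro m g hg
  have hme : Measurable (act g) := hM m g
  refine ⟨hme, ?_⟩
  have hH : (volume : Measure (Pt m)).IsAddHaarMeasure := mp_haar
  ext s hs
  rw [Measure.map_apply hme hs, mp_hyp_apply hs, mp_hyp_apply (hme hs)]
  conv_rhs => rw [← mp_image_SD hg]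
  rw [lintegral_image_eq_lintegral_abs_det_fderiv_mul volume measurableSet_SD
    (f' := fderiv ℝ (act g))
    (fun p hp => (((hC m g hg).contDiffAt (isOpen_SD.mem_nhds hp)).differentiableAt
      two_ne_zero).hasFDerivAt.hasFDerivWithinAt) (mp_injOn hg)]
  refine setLIntegral_congr_fun measurableSet_SD fun p hp => ?_
  have hp' : 0 < hgt p := hp
  have hq' : 0 < hgt (act g p) := act_mem hg hp
  rw [mp_abs_det hJ hg hp]
  by_cases h : act g p ∈ s
  · rw [Set.indicator_of_mem h, Set.indicator_of_mem (show p ∈ act g ⁻¹' s from h),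
      ← ENNReal.ofReal_mul (by positivity)]
    congr 1
    rw [div_pow]
    field_simp
  · rw [Set.indicator_of_notMem h, Set.indicator_of_notMem (show p ∉ act g ⁻¹' s from h),
      mul_zero]

end Pool.Agent.Helper19.Qh
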